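import Pool.Agent.Helper44.KS.GoalsC

/-!
# The Kahn-Saks conjecture: packet CVX

The set of the centres of balls of mass at least `κ` is convex.
-/

namespace Pool.Agent.Helper46.KS

open MeasureTheory Filter Topology Set
open scoped ENNReal ContDiff
open Pool.Agent.Helper44.KS

/-- The ball inequality for convex combinations. -/
theorem ball_comb (h : S_NQS) {c : ℝ} (Z : KSys c) {ρ : ℝ} (hρ : 0 < ρ)
    (f g u v : Fin Z.n → ℝ) (hu : Z.nq (fun p => u p - f p) < ρ ^ 2)
    (hv : Z.nq (fun p => v p - g p) < ρ ^ 2) (a b : ℝ) (ha : 0 ≤ a) (hb : 0 ≤ b)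
    (hab : a + b = 1) :
    Z.nq (fun p => (a • u + b • v) p - (a • f + b • g) p) < ρ ^ 2 := by
  obtain ⟨hadd, hmul, _, _⟩ := h c Z
  rw [← Real.sqrt_lt' hρ] at hu hv ⊢
  have e : (fun p => (a • u + b • v) p - (a • f + b • g) p) =
      fun p => a * (u p - f p) + b * (v p - g p) := by
    funext p
    simp only [Pi.add_apply, Pi.smul_apply, smul_eq_mul]
    ring
  have h1 := hadd (fun p => a * (u p - f p)) (fun p => b * (v p - g p))
  have h2 := hmul (fun p => u p - f p) a
  have h3 := hmul (fun p => v p - g p) b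
  rw [abs_of_nonneg ha] at h2
  rw [abs_of_nonneg hb] at h3
  rw [e]
  refine lt_of_le_of_lt h1 ?_
  rw [h2, h3]
  rcases eq_or_lt_of_le ha with h0 | h0
  · have hb1 : b = 1 := by linarith
    rw [← h0, hb1]
    linarith
  · have h4 : a * √(Z.nq fun p => u p - f p) < a * ρ := mul_lt_mul_of_pos_left hu h0
    have h5 : b * √(Z.nq fun p => v p - g p) ≤ b * ρ := mul_le_mul_of_nonneg_left hv.le hb
    have h6 : a * ρ + b * ρ = ρ := by rw [← add_mul, hab, one_mul]
    linarith

/-- The balls are open. -/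
theorem ball_open (h : S_NQS) {c : ℝ} (Z : KSys c) (ρ : ℝ) (f : Fin Z.n → ℝ) :
    IsOpen {d : Fin Z.n → ℝ | Z.nq (fun p => d p - f p) < ρ ^ 2} := by
  obtain ⟨_, _, _, hc⟩ := h c Z
  have hc' : Continuous fun d : Fin Z.n → ℝ => Z.nq (fun p => d p - f p) :=
    hc.comp (continuous_pi fun p => (continuous_apply p).sub continuous_const)
  exact isOpen_lt hc' continuous_const

/-- The balls are convex. -/
theorem ball_convex (h : S_NQS) {c : ℝ} (Z : KSys c) {ρ : ℝ} (hρ : 0 < ρ) (f : Fin Z.n → ℝ) :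
    Convex ℝ {d : Fin Z.n → ℝ | Z.nq (fun p => d p - f p) < ρ ^ 2} := by
  intro u hu v hv a b ha hb hab
  have h1 := ball_comb h Z hρ f f u v hu hv a b ha hb hab
  have e : a • f + b • f = f := by rw [← add_smul, hab, one_smul]
  rw [e] at h1
  exact h1

/-- CVX: the set of the centres of balls of mass at least `κ` is convex. -/
theorem cvx (h : S_NQS) : S_CVX := by
  intro c Z κ ρ hρ
  rw [convex_iff_forall_pos]
  intro f hf g hg a b ha hb hab
  show κ ≤ Z.μ.real {d | Z.nq (fun p => d p - (a • f + b • g) p) < ρ ^ 2}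
  rcases le_or_gt κ 0 with hκ | hκ
  · exact hκ.trans measureReal_nonneg
  have ha' : 1 - b = a := by linarith
  have hb1 : b < 1 := by linarith
  have key := Z.lc {d | Z.nq (fun p => d p - f p) < ρ ^ 2} {d | Z.nq (fun p => d p - g p) < ρ ^ 2}
    {d | Z.nq (fun p => d p - (a • f + b • g) p) < ρ ^ 2} b
    (ball_open h Z ρ f) (ball_open h Z ρ g) (ball_open h Z ρ _)
    (ball_convex h Z hρ f) (ball_convex h Z hρ g) hb hb1 (by
      intro u hu v hv
      rw [ha']
      exact ball_comb h Z hρ f g u v hu hv a b ha.le hb.le hab)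
  rw [ha'] at key
  refine le_trans ?_ key
  have h1 : κ ^ a ≤ (Z.μ.real {d | Z.nq (fun p => d p - f p) < ρ ^ 2}) ^ a :=
    Real.rpow_le_rpow hκ.le hf ha.le
  have h2 : κ ^ b ≤ (Z.μ.real {d | Z.nq (fun p => d p - g p) < ρ ^ 2}) ^ b :=
    Real.rpow_le_rpow hκ.le hg hb.le
  have h3 : κ = κ ^ a * κ ^ b := by
    rw [← Real.rpow_add hκ, hab, Real.rpow_one]
  calc κ = κ ^ a * κ ^ b := h3
    _ ≤ _ := mul_le_mul h1 h2 (Real.rpow_nonneg hκ.le _)
      (Real.rpow_nonneg measureReal_nonneg _)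

end Pool.Agent.Helper46.KS
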