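import Pool.Agent.Helper75.KS.GoalsA

/-!
# The Kahn-Saks conjecture: packet TRA (transitive subtournaments)
-/

namespace Pool.Agent.Helper46.KS

open Finset
open Pool.Agent.Helper75.KS

/-- TRA. -/
theorem tra : TraStmt := by
  classical
  intro α r T N
  induction N generalizing T with
  | zero =>
    intro hT _
    have h1 : 0 < T.card := by simpa using hT
    obtain ⟨x, hx⟩ := Finset.card_pos.1 h1
    exact ⟨fun _ => x, fun i hi => absurd hi (Nat.not_lt_zero i),
      fun i j _ hj => absurd hj (Nat.not_lt_zero j)⟩
  | succ N ih =>
    intro hT hr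
    have hpos : 0 < T.card := lt_of_lt_of_le (by positivity) hT
    obtain ⟨x, hx⟩ := Finset.card_pos.1 hpos
    have hcov : T.erase x ⊆ (T.filter fun y => y ≠ x ∧ r x y) ∪ (T.filter fun y => y ≠ x ∧ r y x) := by
      intro y hy
      obtain ⟨hne, hyT⟩ := Finset.mem_erase.1 hy
      rcases hr x hx y hyT (Ne.symm hne) with h | h
      · exact Finset.mem_union_left _ (Finset.mem_filter.2 ⟨hyT, hne, h⟩)
      · exact Finset.mem_union_right _ (Finset.mem_filter.2 ⟨hyT, hne, h⟩)
    have hc1 := Finset.card_le_card hcov
    have hc2 := Finset.card_union_le (T.filter fun y => y ≠ x ∧ r x y)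
      (T.filter fun y => y ≠ x ∧ r y x)
    have hc3 : (T.erase x).card = T.card - 1 := Finset.card_erase_of_mem hx
    have hpow : 2 ^ (N + 1) = 2 * 2 ^ N := by ring
    have hN : 0 < 2 ^ N := by positivity
    rcases le_or_gt (2 ^ N) (T.filter fun y => y ≠ x ∧ r x y).card with h | h
    · obtain ⟨z, hz1, hz2⟩ := ih _ h (fun a ha b hb hab =>
        hr a (Finset.mem_filter.1 ha).1 b (Finset.mem_filter.1 hb).1 hab)
      refine ⟨fun i => Nat.casesOn i x z, ?_, ?_⟩
      · intro i hi
        cases i with
        | zero => exact hx
        | succ i => exact (Finset.mem_filter.1 (hz1 i (by omega))).1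
      · intro i j hij hj
        cases j with
        | zero => exact absurd hij (Nat.not_lt_zero i)
        | succ j =>
          have hm := Finset.mem_filter.1 (hz1 j (by omega))
          cases i with
          | zero => exact ⟨Ne.symm hm.2.1, hm.2.2⟩
          | succ i => exact hz2 i j (by omega) (by omega)
    · have h' : 2 ^ N ≤ (T.filter fun y => y ≠ x ∧ r y x).card := by omega
      obtain ⟨z, hz1, hz2⟩ := ih _ h' (fun a ha b hb hab =>
        hr a (Finset.mem_filter.1 ha).1 b (Finset.mem_filter.1 hb).1 hab)
      refine ⟨fun i => if i < N then z i else x, ?_, ?_⟩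
      · intro i hi
        by_cases hiN : i < N
        · simp only [hiN, if_true]
          exact (Finset.mem_filter.1 (hz1 i hiN)).1
        · simp only [hiN, if_false]
          exact hx
      · intro i j hij hj
        have hiN : i < N := by omega
        by_cases hjN : j < N
        · simp only [hiN, hjN, if_true]
          exact hz2 i j hij hjN
        · simp only [hiN, hjN, if_true, if_false]
          have hm := Finset.mem_filter.1 (hz1 i hiN)
          exact ⟨hm.2.1, hm.2.2⟩

end Pool.Agent.Helper46.KS
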